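import Mathlib
import Pool.Agent.H78.PB.Stm2

set_option autoImplicit false

open MeasureTheory ENNReal Filter Topology Complex
open scoped ComplexConjugate ContDiff

namespace Pool.Agent.H7PB.KEA

open Pool.Agent.N892.BW Pool.Agent.H78.PB

/-! ### a general inequality -/

lemma sq_int {Y U : Type*} [MeasurableSpace Y] [MeasurableSpace U] (μ : Measure Y) (lam : Measure U)
    [IsFiniteMeasure μ] [IsFiniteMeasure lam] (g : Y → U → ℂ) (hg : Measurable (Function.uncurry g))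
    (C : ℝ) (hC : ∀ y u, ‖g y u‖ ≤ C) :
    ∫⁻ y, ‖∫ u, g y u ∂lam‖ₑ ^ 2 ∂μ ≤
      ∫⁻ u, ∫⁻ s, ‖∫ y, g y u * conj (g y s) ∂μ‖ₑ ∂lam ∂lam := by
  set G : Y → ℂ := fun y => ∫ u, g y u ∂lam with hG
  have hgm : StronglyMeasurable (Function.uncurry g) := hg.stronglyMeasurable
  have hGm : StronglyMeasurable G := hgm.integral_prod_right
  have hGb : ∀ y, ‖G y‖ ≤ C * (lam.real Set.univ) := fun y =>
    norm_integral_le_of_norm_le_const (Eventually.of_forall (hC y))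
  have hK : Measurable (fun p : Y × (U × U) => g p.1 p.2.1 * conj (g p.1 p.2.2)) := by
    have h1 : Measurable (fun p : Y × (U × U) => g p.1 p.2.1) :=
      hg.comp (measurable_fst.prodMk (measurable_fst.comp measurable_snd))
    have h2 : Measurable (fun p : Y × (U × U) => g p.1 p.2.2) :=
      hg.comp (measurable_fst.prodMk (measurable_snd.comp measurable_snd))
    exact h1.mul (continuous_conj.measurable.comp h2)
  have hint : Integrable (fun p : Y × (U × U) => g p.1 p.2.1 * conj (g p.1 p.2.2))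
      (μ.prod (lam.prod lam)) := by
    refine Integrable.of_bound hK.aestronglyMeasurable (C * C) (Eventually.of_forall fun p => ?_)
    rw [norm_mul, RCLike.norm_conj]
    have h0 : 0 ≤ C := le_trans (norm_nonneg _) (hC p.1 p.2.1)
    exact mul_le_mul (hC _ _) (hC _ _) (norm_nonneg _) h0
  have e1 : ∀ y, ∫ p : U × U, g y p.1 * conj (g y p.2) ∂(lam.prod lam) = G y * conj (G y) := by
    intro y
    rw [integral_prod_mul (fun u => g y u) (fun s => conj (g y s)), integral_conj]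
  have e2 : (∫ y, G y * conj (G y) ∂μ) =
      ∫ p : U × U, (∫ y, g y p.1 * conj (g y p.2) ∂μ) ∂(lam.prod lam) := by
    rw [← integral_integral_swap hint]
    exact integral_congr_ae (Eventually.of_forall fun y => (e1 y).symm)
  have e3 : (∫ y, G y * conj (G y) ∂μ) = ((∫ y, ‖G y‖ ^ 2 ∂μ : ℝ) : ℂ) := by
    rw [← integral_complex_ofReal]
    refine integral_congr_ae (Eventually.of_forall fun y => ?_)
    simp only
    rw [Complex.mul_conj, Complex.normSq_eq_norm_sq]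
  have hsq : Integrable (fun y => ‖G y‖ ^ 2) μ := by
    refine Integrable.of_bound (hGm.norm.pow 2).aestronglyMeasurable ((C * (lam.real Set.univ)) ^ 2)
      (Eventually.of_forall fun y => ?_)
    rw [norm_pow, norm_norm]
    exact pow_le_pow_left₀ (norm_nonneg _) (hGb y) 2
  have e4 : ∫⁻ y, ‖G y‖ₑ ^ 2 ∂μ = ‖∫ y, G y * conj (G y) ∂μ‖ₑ := by
    rw [e3, ← ofReal_norm, Complex.norm_real, Real.norm_of_nonneg
      (integral_nonneg fun y => by positivity),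
      ofReal_integral_eq_lintegral_ofReal hsq (Eventually.of_forall fun y => by positivity)]
    refine lintegral_congr fun y => ?_
    rw [ENNReal.ofReal_pow (norm_nonneg _), ofReal_norm]
  rw [e4, e2]
  refine (enorm_integral_le_lintegral_enorm _).trans ?_
  have hKm : Measurable (fun p : U × U => ∫ y, g y p.1 * conj (g y p.2) ∂μ) := by
    have h1 : StronglyMeasurable (fun q : (U × U) × Y => g q.2 q.1.1 * conj (g q.2 q.1.2)) :=
      (hK.comp measurable_swap).stronglyMeasurable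
    exact h1.integral_prod_right.measurable
  rw [lintegral_prod _ hKm.enorm.aemeasurable]

/-! ### the weight -/

lemma p1_nonneg {θ : ℝ} (h0 : 0 < θ) (h1 : θ < 1) (y : ℝ) : 0 ≤ p1 θ y := by
  unfold p1
  have hs : 0 ≤ Real.sin (Real.pi * θ) := by
    apply Real.sin_nonneg_of_nonneg_of_le_pi
    · positivity
    · nlinarith [Real.pi_pos]
  have hc : 1 ≤ Real.cosh (Real.pi * y) := Real.one_le_cosh _
  have hcos : -1 ≤ Real.cos (Real.pi * θ) := Real.neg_one_le_cos _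
  apply div_nonneg hs
  linarith

lemma p1_even (θ y : ℝ) : p1 θ (-y) = p1 θ y := by
  unfold p1
  rw [mul_neg, Real.cosh_neg]

lemma p1_cont {θ : ℝ} (h0 : 0 < θ) (h1 : θ < 1) : Continuous (p1 θ) := by
  unfold p1
  have hc : ∀ y : ℝ, 2 * (Real.cosh (Real.pi * y) + Real.cos (Real.pi * θ)) ≠ 0 := by
    intro y
    have h2 : 1 ≤ Real.cosh (Real.pi * y) := Real.one_le_cosh _
    have h3 : -1 < Real.cos (Real.pi * θ) := by
      have := Real.cos_lt_cos_of_nonneg_of_le_pi (x := Real.pi * θ) (y := Real.pi) (by positivity)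
        le_rfl (by nlinarith [Real.pi_pos])
      rw [Real.cos_pi] at this
      exact this
    have : 0 < 2 * (Real.cosh (Real.pi * y) + Real.cos (Real.pi * θ)) := by linarith
    exact this.ne'
  have hd : Continuous fun y : ℝ => 2 * (Real.cosh (Real.pi * y) + Real.cos (Real.pi * θ)) := by
    fun_prop
  exact continuous_const.div hd hc

/-- the weight -/
noncomputable def w (θ y : ℝ) : ℝ := (1 + y ^ 2) * p1 θ y

lemma w_nonneg {θ : ℝ} (h0 : 0 < θ) (h1 : θ < 1) (y : ℝ) : 0 ≤ w θ y :=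
  mul_nonneg (by positivity) (p1_nonneg h0 h1 y)

lemma w_even (θ y : ℝ) : w θ (-y) = w θ y := by
  unfold w
  rw [p1_even, neg_sq]

lemma w_cont {θ : ℝ} (h0 : 0 < θ) (h1 : θ < 1) : Continuous (w θ) := by
  unfold w
  have := p1_cont h0 h1
  fun_prop

lemma w_int (hK : P_KRN) {θ : ℝ} (h0 : 0 < θ) (h1 : θ < 1) : Integrable (w θ) := by
  have h := ((hK θ h0 h1).1 2).2
  refine h.mono (w_cont h0 h1).aestronglyMeasurable (Eventually.of_forall fun y => ?_)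
  unfold w
  have hp := p1_nonneg h0 h1 y
  rw [Real.norm_of_nonneg (by positivity), Real.norm_of_nonneg (by positivity), mul_comm]
  refine mul_le_mul_of_nonneg_left ?_ hp
  have := abs_nonneg y
  nlinarith [sq_abs y]

/-- the measure with density `w` -/
noncomputable def mw (θ : ℝ) : Measure ℝ := volume.withDensity fun y => ENNReal.ofReal (w θ y)

lemma mw_fin (hK : P_KRN) {θ : ℝ} (h0 : 0 < θ) (h1 : θ < 1) : IsFiniteMeasure (mw θ) :=
  isFiniteMeasure_withDensity_ofReal (w_int hK h0 h1).2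

lemma rr_mw (hK : P_KRN) {θ : ℝ} (h0 : 0 < θ) (h1 : θ < 1) (L : ℝ) :
    ∫ y, Complex.exp (-((y * L : ℝ) : ℂ) * I) ∂(mw θ) = ((rr θ L : ℝ) : ℂ) := by
  have hm : Measurable fun y => ENNReal.ofReal (w θ y) := (w_cont h0 h1).measurable.ennreal_ofReal
  unfold mw
  rw [integral_withDensity_eq_integral_toReal_smul hm (Eventually.of_forall fun y => ENNReal.ofReal_lt_top)]
  have e : ∀ y : ℝ, (ENNReal.ofReal (w θ y)).toReal • Complex.exp (-((y * L : ℝ) : ℂ) * I) =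
      ((w θ y * Real.cos (L * y) : ℝ) : ℂ) - ((w θ y * Real.sin (L * y) : ℝ) : ℂ) * I := by
    intro y
    rw [ENNReal.toReal_ofReal (w_nonneg h0 h1 y), neg_mul, Complex.exp_neg, Complex.real_smul]
    have : (Complex.exp (((y * L : ℝ) : ℂ) * I))⁻¹ = Complex.exp (((-(y * L) : ℝ) : ℂ) * I) := by
      rw [← Complex.exp_neg]; congr 1; push_cast; ring
    rw [this, Complex.exp_mul_I, ← Complex.ofReal_cos, ← Complex.ofReal_sin, Real.cos_neg, Real.sin_neg,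
      mul_comm y L]
    push_cast
    ring
  simp only [e]
  have hi := w_int hK h0 h1
  have hc : Integrable fun y : ℝ => w θ y * Real.cos (L * y) := by
    refine hi.mono ((w_cont h0 h1).mul (by fun_prop)).aestronglyMeasurable (Eventually.of_forall fun y => ?_)
    rw [norm_mul]
    exact mul_le_of_le_one_right (norm_nonneg _) (Real.abs_cos_le_one _)
  have hs : Integrable fun y : ℝ => w θ y * Real.sin (L * y) := by
    refine hi.mono ((w_cont h0 h1).mul (by fun_prop)).aestronglyMeasurable (Eventually.of_forall fun y => ?_)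
    rw [norm_mul]
    exact mul_le_of_le_one_right (norm_nonneg _) (Real.abs_sin_le_one _)
  have hz : ∫ y : ℝ, w θ y * Real.sin (L * y) = 0 := by
    have h2 := integral_neg_eq_self (fun y : ℝ => w θ y * Real.sin (L * y)) volume
    simp only [w_even, mul_neg, Real.sin_neg, integral_neg] at h2
    linarith
  have hc' : Integrable fun y : ℝ => ((w θ y * Real.cos (L * y) : ℝ) : ℂ) := hc.ofReal
  have hs' : Integrable fun y : ℝ => ((w θ y * Real.sin (L * y) : ℝ) : ℂ) * I := hs.ofReal.mul_const I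
  rw [integral_sub hc' hs', integral_mul_const, integral_complex_ofReal, integral_complex_ofReal,
    hz]
  simp only [Complex.ofReal_zero, zero_mul, sub_zero]
  congr 1
  unfold rr w
  refine integral_congr_ae (Eventually.of_forall fun y => ?_)
  simp only
  ring

/-! ### measurability of `rr` and `rd` -/

lemma rr_meas {θ : ℝ} (h0 : 0 < θ) (h1 : θ < 1) : Measurable (rr θ) := by
  have hp := p1_cont h0 h1
  have h : StronglyMeasurable (Function.uncurry fun t y : ℝ => p1 θ y * (1 + y ^ 2) * Real.cos (t * y)) := by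
    apply Measurable.stronglyMeasurable
    have : Continuous (Function.uncurry fun t y : ℝ => p1 θ y * (1 + y ^ 2) * Real.cos (t * y)) := by
      unfold Function.uncurry
      fun_prop
    exact this.measurable
  exact h.integral_prod_right.measurable

lemma rd_meas {θ : ℝ} (h0 : 0 < θ) (h1 : θ < 1) : Measurable (rd θ) := by
  have hp := p1_cont h0 h1
  have h : StronglyMeasurable
      (Function.uncurry fun t y : ℝ => p1 θ y * (1 + y ^ 2) * (y * Real.sin (t * y))) := by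
    apply Measurable.stronglyMeasurable
    have : Continuous
        (Function.uncurry fun t y : ℝ => p1 θ y * (1 + y ^ 2) * (y * Real.sin (t * y))) := by
      unfold Function.uncurry
      fun_prop
    exact this.measurable
  exact h.integral_prod_right.measurable.neg

lemma rr_even (θ t : ℝ) : rr θ (-t) = rr θ t := by
  unfold rr
  simp only [neg_mul, Real.cos_neg]

lemma rd_odd (θ t : ℝ) : rd θ (-t) = -rd θ t := by
  unfold rd
  simp only [neg_mul, Real.sin_neg, mul_neg, integral_neg]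

/-! ### the analytic family on the line `Re z = 1` -/

/-- modulus -/
noncomputable def b (ρ : ℂ → ℝ) (u : ℂ) : ℝ :=
  open Classical in
  if ρ u = 0 ∨ u = 0 then 0 else Real.exp (Real.log (ρ u) / 4 - Real.log ‖u‖)

/-- phase -/
noncomputable def Ps (ρ : ℂ → ℝ) (u : ℂ) : ℝ := Real.log (ρ u) / 4 + Real.log ‖u‖

lemma b_nonneg (ρ : ℂ → ℝ) (u : ℂ) : 0 ≤ b ρ u := by
  unfold b
  split_ifs <;> positivity

lemma FZ_eq {ρ : ℂ → ℝ} (hρ : ∀ u, 0 ≤ ρ u) (σ : ℂ → ℂ) (y : ℝ) (u : ℂ) :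
    FZ ρ σ (1 + (y : ℂ) * I) u = (b ρ u : ℂ) * Complex.exp (-((y * Ps ρ u : ℝ) : ℂ) * I) * σ u := by
  unfold FZ b
  split_ifs with h
  · simp
  · push Not at h
    have hr : 0 < ρ u := lt_of_le_of_ne (hρ u) (Ne.symm h.1)
    have hn : 0 < ‖u‖ := norm_pos_iff.mpr h.2
    rw [Complex.cpow_def_of_ne_zero (by exact_mod_cast hr.ne'),
      Complex.cpow_def_of_ne_zero (by exact_mod_cast hn.ne'), ← Complex.ofReal_log hr.le,
      ← Complex.ofReal_log hn.le, ← Complex.exp_add]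
    congr 1
    rw [Complex.ofReal_exp, ← Complex.exp_add]
    congr 1
    unfold Ps
    push_cast
    ring

lemma b_meas {ρ : ℂ → ℝ} (hρ : Measurable ρ) : Measurable (b ρ) := by
  unfold b
  refine Measurable.ite ?_ measurable_const ?_
  · exact (measurableSet_eq_fun hρ measurable_const).union (measurableSet_singleton 0)
  · exact Real.measurable_exp.comp (((Real.measurable_log.comp hρ).div_const 4).sub
      (Real.measurable_log.comp measurable_norm))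

lemma Ps_meas {ρ : ℂ → ℝ} (hρ : Measurable ρ) : Measurable (Ps ρ) := by
  unfold Ps
  exact ((Real.measurable_log.comp hρ).div_const 4).add (Real.measurable_log.comp measurable_norm)

lemma b_bdd {ρ : ℂ → ℝ} {M δ R : ℝ} (hρ : ∀ u, 0 ≤ ρ u) (hM : ∀ u, ρ u ≤ M) (hδ : 0 < δ)
    (hR : ∀ u, ρ u ≠ 0 → δ ≤ ‖u‖ ∧ ‖u‖ ≤ R) :
    (∃ B : ℝ, 0 ≤ B ∧ ∀ u, b ρ u ≤ B) ∧ ∀ u, R < ‖u‖ → b ρ u = 0 := by
  constructor
  · refine ⟨Real.exp (Real.log (max M 1) / 4 - Real.log δ), (Real.exp_pos _).le, fun u => ?_⟩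
    unfold b
    split_ifs with h
    · positivity
    · push Not at h
      apply Real.exp_le_exp.mpr
      have hr : 0 < ρ u := lt_of_le_of_ne (hρ u) (Ne.symm h.1)
      have h1 : Real.log (ρ u) ≤ Real.log (max M 1) :=
        Real.log_le_log hr ((hM u).trans (le_max_left _ _))
      have h2 : Real.log δ ≤ Real.log ‖u‖ := Real.log_le_log hδ (hR u h.1).1
      linarith
  · intro u hu
    unfold b
    rw [if_pos]
    left
    by_contra h
    exact absurd (hR u h).2 (not_le.mpr hu)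

/-! ### the integral in `y` -/

/-- the modulus of the product -/
noncomputable def be (ρ : ℂ → ℝ) (v u : ℂ) : ℝ := b ρ u * b ρ (v - u)

/-- the phase of the product -/
noncomputable def Ph (ρ : ℂ → ℝ) (v u : ℂ) : ℝ := Ps ρ u + Ps ρ (v - u)

lemma stepA (hK : P_KRN) (hRR : P_RR) {θ : ℝ} (h0 : 0 < θ) (h1 : θ < 1) {ρ : ℂ → ℝ} {σ : ℂ → ℂ}
    (hA : Adm ρ σ) (v : ℂ) :
    ∫⁻ y : ℝ, ENNReal.ofReal (w θ y) *
        ‖∫ u, FZ ρ σ (1 + (y : ℂ) * I) u * FZ ρ σ (1 + (y : ℂ) * I) (v - u)‖ₑ ^ 2 ≤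
      ∫⁻ u, ∫⁻ s, ENNReal.ofReal (be ρ v u * be ρ v s * rr θ (Ph ρ v u - Ph ρ v s)) := by
  obtain ⟨hρm, hσm, hρ, ⟨M, hM⟩, ⟨δ, R, hδ, hR⟩, hσ⟩ := hA
  obtain ⟨⟨B, hB0, hB⟩, hb0⟩ := b_bdd hρ hM hδ hR
  have := mw_fin hK h0 h1
  set g : ℝ → ℂ → ℂ := fun y u => ((be ρ v u : ℝ) : ℂ) *
    Complex.exp (-((y * Ph ρ v u : ℝ) : ℂ) * I) * (σ u * σ (v - u)) with hg
  have hge : ∀ (y : ℝ) (u : ℂ),
      FZ ρ σ (1 + (y : ℂ) * I) u * FZ ρ σ (1 + (y : ℂ) * I) (v - u) = g y u := by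
    intro y u
    rw [FZ_eq hρ, FZ_eq hρ]
    simp only [hg, be, Ph]
    have : Complex.exp (-((y * (Ps ρ u + Ps ρ (v - u)) : ℝ) : ℂ) * I) =
        Complex.exp (-((y * Ps ρ u : ℝ) : ℂ) * I) * Complex.exp (-((y * Ps ρ (v - u) : ℝ) : ℂ) * I) := by
      rw [← Complex.exp_add]
      congr 1
      push_cast
      ring
    rw [this]
    push_cast
    ring
  have hbm : Measurable (be ρ v) := (b_meas hρm).mul ((b_meas hρm).comp (measurable_const.sub measurable_id))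
  have hPm : Measurable (Ph ρ v) :=
    (Ps_meas hρm).add ((Ps_meas hρm).comp (measurable_const.sub measurable_id))
  have hgm : Measurable (Function.uncurry g) := by
    have e1 : Measurable fun q : ℝ × ℂ => ((be ρ v q.2 : ℝ) : ℂ) :=
      Complex.measurable_ofReal.comp (hbm.comp measurable_snd)
    have e2 : Measurable fun q : ℝ × ℂ => Complex.exp (-((q.1 * Ph ρ v q.2 : ℝ) : ℂ) * I) :=
      Complex.measurable_exp.comp (((Complex.measurable_ofReal.comp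
        (measurable_fst.mul (hPm.comp measurable_snd))).neg).mul_const I)
    have e3 : Measurable fun q : ℝ × ℂ => σ q.2 * σ (v - q.2) :=
      (hσm.comp measurable_snd).mul (hσm.comp (measurable_const.sub measurable_snd))
    exact (e1.mul e2).mul e3
  have hgn : ∀ y u, ‖g y u‖ ≤ be ρ v u := by
    intro y u
    simp only [hg]
    have hbe : 0 ≤ be ρ v u := mul_nonneg (b_nonneg _ _) (b_nonneg _ _)
    have he : ‖Complex.exp (-((y * Ph ρ v u : ℝ) : ℂ) * I)‖ = 1 := by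
      rw [show -((y * Ph ρ v u : ℝ) : ℂ) * I = ((-(y * Ph ρ v u) : ℝ) : ℂ) * I by push_cast; ring]
      exact Complex.norm_exp_ofReal_mul_I _
    rw [norm_mul, norm_mul, he, mul_one, Complex.norm_real, Real.norm_of_nonneg hbe, norm_mul]
    have : ‖σ u‖ * ‖σ (v - u)‖ ≤ 1 := mul_le_one₀ (hσ u) (norm_nonneg _) (hσ _)
    calc be ρ v u * (‖σ u‖ * ‖σ (v - u)‖) ≤ be ρ v u * 1 := mul_le_mul_of_nonneg_left this hbe
      _ = be ρ v u := mul_one _
  have hbeB : ∀ u, be ρ v u ≤ B * B := fun u =>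
    mul_le_mul (hB u) (hB _) (b_nonneg _ _) hB0
  set lam : Measure ℂ := volume.restrict (Metric.closedBall 0 R) with hlam
  have hlf : IsFiniteMeasure lam := by
    refine ⟨?_⟩
    rw [hlam, Measure.restrict_apply_univ]
    exact (isCompact_closedBall (0 : ℂ) R).measure_lt_top
  have hsupp : ∀ y, ∫ u, g y u = ∫ u, g y u ∂lam := by
    intro y
    rw [hlam]
    refine (setIntegral_eq_integral_of_forall_compl_eq_zero fun u hu => ?_).symm
    have : R < ‖u‖ := by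
      by_contra hh
      exact hu (by simpa using not_lt.mp hh)
    simp only [hg, be, hb0 u this, zero_mul, Complex.ofReal_zero]
  have key := sq_int (mw θ) lam g hgm (B * B) fun y u => (hgn y u).trans (hbeB u)
  have hGm : Measurable fun y => ‖∫ u, g y u ∂lam‖ₑ ^ 2 :=
    (hgm.stronglyMeasurable.integral_prod_right.measurable.enorm).pow_const 2
  have hwm : Measurable fun y => ENNReal.ofReal (w θ y) := (w_cont h0 h1).measurable.ennreal_ofReal
  calc ∫⁻ y : ℝ, ENNReal.ofReal (w θ y) *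
        ‖∫ u, FZ ρ σ (1 + (y : ℂ) * I) u * FZ ρ σ (1 + (y : ℂ) * I) (v - u)‖ₑ ^ 2
      = ∫⁻ y, ‖∫ u, g y u ∂lam‖ₑ ^ 2 ∂(mw θ) := by
        unfold mw
        rw [lintegral_withDensity_eq_lintegral_mul _ hwm hGm]
        refine lintegral_congr fun y => ?_
        simp only [Pi.mul_apply]
        rw [← hsupp]
        simp only [hge]
    _ ≤ ∫⁻ u, ∫⁻ s, ‖∫ y, g y u * conj (g y s) ∂(mw θ)‖ₑ ∂lam ∂lam := key
    _ ≤ ∫⁻ u, ∫⁻ s, ENNReal.ofReal (be ρ v u * be ρ v s * rr θ (Ph ρ v u - Ph ρ v s)) ∂lam ∂lam := by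
        refine lintegral_mono fun u => lintegral_mono fun s => ?_
        have e : ∀ y : ℝ, g y u * conj (g y s) =
            (((be ρ v u : ℝ) : ℂ) * ((be ρ v s : ℝ) : ℂ) * (σ u * σ (v - u)) * conj (σ s * σ (v - s))) *
              Complex.exp (-((y * (Ph ρ v u - Ph ρ v s) : ℝ) : ℂ) * I) := by
          intro y
          simp only [hg, map_mul, Complex.conj_ofReal, ← Complex.exp_conj, map_neg, Complex.conj_I]
          have : Complex.exp (-((y * (Ph ρ v u - Ph ρ v s) : ℝ) : ℂ) * I) =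
              Complex.exp (-((y * Ph ρ v u : ℝ) : ℂ) * I) *
                Complex.exp (-((y * Ph ρ v s : ℝ) : ℂ) * -I) := by
            rw [← Complex.exp_add]
            congr 1
            push_cast
            ring
          rw [this]
          ring
        simp only [e]
        rw [integral_const_mul, rr_mw hK h0 h1]
        have hr0 : 0 ≤ rr θ (Ph ρ v u - Ph ρ v s) := by
          have a1 := (hRR θ h0 h1).2.1 (Ph ρ v u - Ph ρ v s)
          have a2 := (hRR θ h0 h1).2.2 (Ph ρ v u - Ph ρ v s)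
          linarith
        have hbu : 0 ≤ be ρ v u := mul_nonneg (b_nonneg _ _) (b_nonneg _ _)
        have hbs : 0 ≤ be ρ v s := mul_nonneg (b_nonneg _ _) (b_nonneg _ _)
        rw [← ofReal_norm]
        apply ENNReal.ofReal_le_ofReal
        rw [norm_mul, norm_mul, norm_mul, norm_mul, RCLike.norm_conj, Complex.norm_real, Complex.norm_real,
          Complex.norm_real, Real.norm_of_nonneg hbu, Real.norm_of_nonneg hbs, Real.norm_of_nonneg hr0,
          norm_mul, norm_mul]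
        have t1 : ‖σ u‖ * ‖σ (v - u)‖ ≤ 1 := mul_le_one₀ (hσ u) (norm_nonneg _) (hσ _)
        have t2 : ‖σ s‖ * ‖σ (v - s)‖ ≤ 1 := mul_le_one₀ (hσ s) (norm_nonneg _) (hσ _)
        refine mul_le_mul_of_nonneg_right ?_ hr0
        calc be ρ v u * be ρ v s * (‖σ u‖ * ‖σ (v - u)‖) * (‖σ s‖ * ‖σ (v - s)‖)
            ≤ be ρ v u * be ρ v s * 1 * 1 := by
              gcongr
          _ = _ := by ring
    _ ≤ ∫⁻ u, ∫⁻ s, ENNReal.ofReal (be ρ v u * be ρ v s * rr θ (Ph ρ v u - Ph ρ v s)) := by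
        rw [hlam]
        refine (lintegral_mono fun u => ?_).trans
          (lintegral_mono' Measure.restrict_le_self le_rfl)
        exact lintegral_mono' Measure.restrict_le_self le_rfl

/-! ### the pointwise inequality -/

/-- half the logarithm of the quotient -/
noncomputable def Lg (v u s : ℂ) : ℝ := Real.log ((‖u‖ * ‖v - u‖) / (‖s‖ * ‖v - s‖)) / 2

/-- the kernel -/
noncomputable def kr (θ : ℝ) (v u s : ℂ) : ℝ :=
  (‖u‖ * ‖v - u‖) ^ (-(3 / 2) : ℝ) * (‖s‖ * ‖v - s‖) ^ (-(3 / 2) : ℝ) *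
    (rr θ (Lg v u s) + rd θ (Lg v u s))

/-- the square root of the weight -/
noncomputable def qs (ρ : ℂ → ℝ) (u : ℂ) : ℝ := Real.sqrt (ρ u) * ‖u‖

/-- first majorant -/
noncomputable def X (θ : ℝ) (ρ : ℂ → ℝ) (v u s : ℂ) : ℝ := kr θ v u s * (qs ρ u * qs ρ (v - u))

/-- second majorant -/
noncomputable def Z (θ : ℝ) (ρ : ℂ → ℝ) (v u s : ℂ) : ℝ := kr θ v u s * (ρ u * ‖u‖ ^ 2)

lemma kr_nonneg (hRR : P_RR) {θ : ℝ} (h0 : 0 < θ) (h1 : θ < 1) (v u s : ℂ) : 0 ≤ kr θ v u s := by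
  unfold kr
  have := (hRR θ h0 h1).2.1 (Lg v u s)
  positivity

lemma qs_nonneg (ρ : ℂ → ℝ) (u : ℂ) : 0 ≤ qs ρ u := by
  unfold qs; positivity

lemma Lg_symm (v u s : ℂ) : Lg v s u = -Lg v u s := by
  unfold Lg
  have h : (‖s‖ * ‖v - s‖) / (‖u‖ * ‖v - u‖) = ((‖u‖ * ‖v - u‖) / (‖s‖ * ‖v - s‖))⁻¹ :=
    (inv_div _ _).symm
  rw [h, Real.log_inv]
  ring

lemma point (hRR : P_RR) {θ : ℝ} (h0 : 0 < θ) (h1 : θ < 1) {ρ : ℂ → ℝ} (hρ : ∀ u, 0 ≤ ρ u) (v u s : ℂ) :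
    be ρ v u * be ρ v s * rr θ (Ph ρ v u - Ph ρ v s) ≤ (X θ ρ v u s + X θ ρ v s u) / 2 := by
  have hX : ∀ u s, 0 ≤ X θ ρ v u s := fun u s =>
    mul_nonneg (kr_nonneg hRR h0 h1 v u s) (mul_nonneg (qs_nonneg _ _) (qs_nonneg _ _))
  by_cases hu : (ρ u = 0 ∨ u = 0) ∨ (ρ (v - u) = 0 ∨ v - u = 0)
  · have : be ρ v u = 0 := by
      unfold be b
      rcases hu with h | h
      · rw [if_pos h, zero_mul]
      · rw [if_pos h, mul_zero]
    rw [this, zero_mul, zero_mul]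
    have a1 := hX u s
    have a2 := hX s u
    linarith
  by_cases hs : (ρ s = 0 ∨ s = 0) ∨ (ρ (v - s) = 0 ∨ v - s = 0)
  · have : be ρ v s = 0 := by
      unfold be b
      rcases hs with h | h
      · rw [if_pos h, zero_mul]
      · rw [if_pos h, mul_zero]
    rw [this, mul_zero, zero_mul]
    have a1 := hX u s
    have a2 := hX s u
    linarith
  push Not at hu hs
  obtain ⟨⟨hu1, hu2⟩, hu3, hu4⟩ := hu
  obtain ⟨⟨hs1, hs2⟩, hs3, hs4⟩ := hs
  have r1 : 0 < ρ u := lt_of_le_of_ne (hρ u) (Ne.symm hu1)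
  have r2 : 0 < ρ (v - u) := lt_of_le_of_ne (hρ _) (Ne.symm hu3)
  have r3 : 0 < ρ s := lt_of_le_of_ne (hρ s) (Ne.symm hs1)
  have r4 : 0 < ρ (v - s) := lt_of_le_of_ne (hρ _) (Ne.symm hs3)
  have m1 : 0 < ‖u‖ := norm_pos_iff.mpr hu2
  have m2 : 0 < ‖v - u‖ := norm_pos_iff.mpr hu4
  have m3 : 0 < ‖s‖ := norm_pos_iff.mpr hs2
  have m4 : 0 < ‖v - s‖ := norm_pos_iff.mpr hs4
  obtain ⟨a1, ha1⟩ : ∃ a, Real.log (ρ u) = a := ⟨_, rfl⟩
  obtain ⟨a2, ha2⟩ : ∃ a, Real.log (ρ (v - u)) = a := ⟨_, rfl⟩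
  obtain ⟨a3, ha3⟩ : ∃ a, Real.log (ρ s) = a := ⟨_, rfl⟩
  obtain ⟨a4, ha4⟩ : ∃ a, Real.log (ρ (v - s)) = a := ⟨_, rfl⟩
  obtain ⟨n1, hn1⟩ : ∃ a, Real.log ‖u‖ = a := ⟨_, rfl⟩
  obtain ⟨n2, hn2⟩ : ∃ a, Real.log ‖v - u‖ = a := ⟨_, rfl⟩
  obtain ⟨n3, hn3⟩ : ∃ a, Real.log ‖s‖ = a := ⟨_, rfl⟩
  obtain ⟨n4, hn4⟩ : ∃ a, Real.log ‖v - s‖ = a := ⟨_, rfl⟩
  have eb : ∀ x : ℂ, ρ x ≠ 0 → x ≠ 0 → b ρ x = Real.exp (Real.log (ρ x) / 4 - Real.log ‖x‖) := by
    intro x hx hx'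
    unfold b
    rw [if_neg (by push Not; exact ⟨hx, hx'⟩)]
  have ebu : be ρ v u = Real.exp ((a1 + a2) / 4 - (n1 + n2)) := by
    unfold be
    rw [eb u hu1 hu2, eb _ hu3 hu4, ha1, ha2, hn1, hn2, ← Real.exp_add]
    congr 1; ring
  have ebs : be ρ v s = Real.exp ((a3 + a4) / 4 - (n3 + n4)) := by
    unfold be
    rw [eb s hs1 hs2, eb _ hs3 hs4, ha3, ha4, hn3, hn4, ← Real.exp_add]
    congr 1; ring
  have ePu : Ph ρ v u = (a1 + a2) / 4 + (n1 + n2) := by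
    unfold Ph Ps
    rw [ha1, ha2, hn1, hn2]; ring
  have ePs : Ph ρ v s = (a3 + a4) / 4 + (n3 + n4) := by
    unfold Ph Ps
    rw [ha3, ha4, hn3, hn4]; ring
  have eq : ∀ x : ℂ, 0 < ρ x → 0 < ‖x‖ → qs ρ x = Real.exp (Real.log (ρ x) / 2 + Real.log ‖x‖) := by
    intro x hx hx'
    unfold qs
    rw [Real.exp_add, Real.exp_log hx', ← Real.log_sqrt hx.le, Real.exp_log (Real.sqrt_pos.mpr hx)]
  have equ : qs ρ u * qs ρ (v - u) = Real.exp ((a1 + a2) / 2 + (n1 + n2)) := by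
    rw [eq u r1 m1, eq _ r2 m2, ha1, ha2, hn1, hn2, ← Real.exp_add]
    congr 1; ring
  have eqs : qs ρ s * qs ρ (v - s) = Real.exp ((a3 + a4) / 2 + (n3 + n4)) := by
    rw [eq s r3 m3, eq _ r4 m4, ha3, ha4, hn3, hn4, ← Real.exp_add]
    congr 1; ring
  have eL : Lg v u s = ((n1 + n2) - (n3 + n4)) / 2 := by
    unfold Lg
    rw [Real.log_div (by positivity) (by positivity), Real.log_mul m1.ne' m2.ne',
      Real.log_mul m3.ne' m4.ne', hn1, hn2, hn3, hn4]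
  have ek1 : (‖u‖ * ‖v - u‖) ^ (-(3 / 2) : ℝ) = Real.exp (-(3 / 2) * (n1 + n2)) := by
    rw [Real.rpow_def_of_pos (by positivity), Real.log_mul m1.ne' m2.ne', hn1, hn2]
    congr 1; ring
  have ek2 : (‖s‖ * ‖v - s‖) ^ (-(3 / 2) : ℝ) = Real.exp (-(3 / 2) * (n3 + n4)) := by
    rw [Real.rpow_def_of_pos (by positivity), Real.log_mul m3.ne' m4.ne', hn3, hn4]
    congr 1; ring
  set L := Lg v u s with hL
  obtain ⟨P, hP⟩ : ∃ P, P = (a1 + a2) / 4 + (n1 + n2) / 2 := ⟨_, rfl⟩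
  obtain ⟨Q, hQ⟩ : ∃ Q, Q = (a3 + a4) / 4 + (n3 + n4) / 2 := ⟨_, rfl⟩
  have hk : kr θ v u s = Real.exp (-(3 / 2) * (n1 + n2 + (n3 + n4))) * (rr θ L + rd θ L) := by
    unfold kr
    rw [ek1, ek2, ← Real.exp_add, ← hL]
    congr 2; ring
  have hk' : kr θ v s u = Real.exp (-(3 / 2) * (n1 + n2 + (n3 + n4))) * (rr θ L - rd θ L) := by
    unfold kr
    rw [ek1, ek2, ← Real.exp_add, Lg_symm, ← hL, rr_even, rd_odd]
    congr 2; ring
  unfold X
  rw [hk, hk', equ, eqs, ebu, ebs, ePu, ePs, ← Real.exp_add]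
  have e1 : (a1 + a2) / 4 - (n1 + n2) + ((a3 + a4) / 4 - (n3 + n4)) =
      -(3 / 2) * (n1 + n2 + (n3 + n4)) + (P + Q) := by rw [hP, hQ]; ring
  have e2 : (a1 + a2) / 4 + (n1 + n2) - ((a3 + a4) / 4 + (n3 + n4)) = (P - Q) + L := by
    rw [hP, hQ, eL]; ring
  have e3 : (a1 + a2) / 2 + (n1 + n2) = P + P := by rw [hP]; ring
  have e4 : (a3 + a4) / 2 + (n3 + n4) = Q + Q := by rw [hQ]; ring
  rw [e1, e2, e3, e4, Real.exp_add]
  have hmain := (hRR θ h0 h1).1 L (P - Q)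
  have hE : 0 < Real.exp (P + Q) := Real.exp_pos _
  have h5 : Real.exp (P + Q) * rr θ (P - Q + L) ≤
      ((rr θ L + rd θ L) * Real.exp (P + P) + (rr θ L - rd θ L) * Real.exp (Q + Q)) / 2 := by
    refine (mul_le_mul_of_nonneg_left hmain hE.le).trans (le_of_eq ?_)
    rw [Real.cosh_eq, Real.sinh_eq]
    have f1 : Real.exp (P + Q) * Real.exp (P - Q) = Real.exp (P + P) := by
      rw [← Real.exp_add]; congr 1; ring
    have f2 : Real.exp (P + Q) * Real.exp (-(P - Q)) = Real.exp (Q + Q) := by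
      rw [← Real.exp_add]; congr 1; ring
    rw [← f1, ← f2]
    ring
  have hEk : 0 < Real.exp (-(3 / 2) * (n1 + n2 + (n3 + n4))) := Real.exp_pos _
  have h6 := mul_le_mul_of_nonneg_left h5 hEk.le
  calc Real.exp (-(3 / 2) * (n1 + n2 + (n3 + n4))) * Real.exp (P + Q) * rr θ (P - Q + L)
      = Real.exp (-(3 / 2) * (n1 + n2 + (n3 + n4))) * (Real.exp (P + Q) * rr θ (P - Q + L)) := by ring
    _ ≤ _ := h6
    _ = _ := by ring

lemma X_le (hRR : P_RR) {θ : ℝ} (h0 : 0 < θ) (h1 : θ < 1) {ρ : ℂ → ℝ} (hρ : ∀ u, 0 ≤ ρ u) (v u s : ℂ) :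
    X θ ρ v u s ≤ (Z θ ρ v u s + Z θ ρ v (v - u) s) / 2 := by
  have hk := kr_nonneg hRR h0 h1 v u s
  have e : kr θ v (v - u) s = kr θ v u s := by
    have hv : v - (v - u) = u := by ring
    unfold kr Lg
    rw [hv, mul_comm ‖v - u‖ ‖u‖]
  unfold X Z
  rw [e]
  have h2 : qs ρ u ^ 2 = ρ u * ‖u‖ ^ 2 := by
    unfold qs
    rw [mul_pow, Real.sq_sqrt (hρ u)]
  have h3 : qs ρ (v - u) ^ 2 = ρ (v - u) * ‖v - u‖ ^ 2 := by
    unfold qs
    rw [mul_pow, Real.sq_sqrt (hρ _)]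
  rw [← h2, ← h3]
  have h4 : qs ρ u * qs ρ (v - u) ≤ (qs ρ u ^ 2 + qs ρ (v - u) ^ 2) / 2 := by
    nlinarith [sq_nonneg (qs ρ u - qs ρ (v - u))]
  calc kr θ v u s * (qs ρ u * qs ρ (v - u))
      ≤ kr θ v u s * ((qs ρ u ^ 2 + qs ρ (v - u) ^ 2) / 2) := mul_le_mul_of_nonneg_left h4 hk
    _ = _ := by ring

lemma Z_nonneg (hRR : P_RR) {θ : ℝ} (h0 : 0 < θ) (h1 : θ < 1) {ρ : ℂ → ℝ} (hρ : ∀ u, 0 ≤ ρ u) (v u s : ℂ) :
    0 ≤ Z θ ρ v u s :=
  mul_nonneg (kr_nonneg hRR h0 h1 v u s) (mul_nonneg (hρ u) (by positivity))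

lemma X_nonneg (hRR : P_RR) {θ : ℝ} (h0 : 0 < θ) (h1 : θ < 1) (ρ : ℂ → ℝ) (v u s : ℂ) :
    0 ≤ X θ ρ v u s :=
  mul_nonneg (kr_nonneg hRR h0 h1 v u s) (mul_nonneg (qs_nonneg _ _) (qs_nonneg _ _))

/-! ### measurability -/

lemma Lg_meas : Measurable fun q : (ℂ × ℂ) × ℂ => Lg q.1.1 q.1.2 q.2 := by
  unfold Lg
  have e1 : Measurable fun q : (ℂ × ℂ) × ℂ => ‖q.1.2‖ * ‖q.1.1 - q.1.2‖ := by fun_prop
  have e2 : Measurable fun q : (ℂ × ℂ) × ℂ => ‖q.2‖ * ‖q.1.1 - q.2‖ := by fun_prop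
  exact (Real.measurable_log.comp (e1.div e2)).div_const 2

lemma kr_meas {θ : ℝ} (h0 : 0 < θ) (h1 : θ < 1) :
    Measurable fun q : (ℂ × ℂ) × ℂ => kr θ q.1.1 q.1.2 q.2 := by
  unfold kr
  have e1 : Measurable fun q : (ℂ × ℂ) × ℂ => (‖q.1.2‖ * ‖q.1.1 - q.1.2‖) ^ (-(3 / 2) : ℝ) := by fun_prop
  have e2 : Measurable fun q : (ℂ × ℂ) × ℂ => (‖q.2‖ * ‖q.1.1 - q.2‖) ^ (-(3 / 2) : ℝ) := by fun_prop
  exact (e1.mul e2).mul (((rr_meas h0 h1).comp Lg_meas).add ((rd_meas h0 h1).comp Lg_meas))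

lemma Z_meas {θ : ℝ} (h0 : 0 < θ) (h1 : θ < 1) {ρ : ℂ → ℝ} (hρ : Measurable ρ) :
    Measurable fun q : (ℂ × ℂ) × ℂ => Z θ ρ q.1.1 q.1.2 q.2 := by
  unfold Z
  refine (kr_meas h0 h1).mul (Measurable.mul (hρ.comp (measurable_snd.comp measurable_fst)) ?_)
  fun_prop

lemma qs_meas {ρ : ℂ → ℝ} (hρ : Measurable ρ) : Measurable (qs ρ) := by
  unfold qs
  exact (Real.continuous_sqrt.measurable.comp hρ).mul measurable_norm

lemma X_meas {θ : ℝ} (h0 : 0 < θ) (h1 : θ < 1) {ρ : ℂ → ℝ} (hρ : Measurable ρ) :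
    Measurable fun q : (ℂ × ℂ) × ℂ => X θ ρ q.1.1 q.1.2 q.2 := by
  unfold X
  exact (kr_meas h0 h1).mul (((qs_meas hρ).comp (measurable_snd.comp measurable_fst)).mul
    ((qs_meas hρ).comp ((measurable_fst.comp measurable_fst).sub (measurable_snd.comp measurable_fst))))

/-! ### symmetrisation -/

/-- averaging -/
lemma avg (f g : ℂ → ℂ → ℝ≥0∞) (hf : Measurable (Function.uncurry f)) :
    ∫⁻ u, ∫⁻ s, (1 / 2 : ℝ≥0∞) * (f u s + g u s) =
      (1 / 2 : ℝ≥0∞) * ((∫⁻ u, ∫⁻ s, f u s) + ∫⁻ u, ∫⁻ s, g u s) := by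
  have h12 : (1 / 2 : ℝ≥0∞) ≠ ⊤ := by norm_num
  have hfu : ∀ u, Measurable (f u) := fun u => hf.comp (measurable_const.prodMk measurable_id)
  have e1 : ∀ u, ∫⁻ s, (1 / 2 : ℝ≥0∞) * (f u s + g u s) =
      (1 / 2 : ℝ≥0∞) * ((∫⁻ s, f u s) + ∫⁻ s, g u s) := by
    intro u
    rw [lintegral_const_mul' _ _ h12, lintegral_add_left (hfu u)]
  have hF : Measurable fun u => ∫⁻ s, f u s := hf.lintegral_prod_right'
  rw [lintegral_congr e1, lintegral_const_mul' _ _ h12, lintegral_add_left hF]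

lemma half_add (x : ℝ≥0∞) : (1 / 2 : ℝ≥0∞) * (x + x) = x := by
  rw [← two_mul, ← mul_assoc, one_div, ENNReal.inv_mul_cancel (by norm_num) (by norm_num), one_mul]

lemma ofReal_half (x y : ℝ) (hx : 0 ≤ x) (hy : 0 ≤ y) : ENNReal.ofReal ((x + y) / 2) =
    (1 / 2 : ℝ≥0∞) * (ENNReal.ofReal x + ENNReal.ofReal y) := by
  rw [← ENNReal.ofReal_add hx hy, show (1 / 2 : ℝ≥0∞) = ENNReal.ofReal (1 / 2) by
    rw [ENNReal.ofReal_div_of_pos (by norm_num)]; simp, ← ENNReal.ofReal_mul (by norm_num)]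
  congr 1; ring

lemma stepB1 (hRR : P_RR) {θ : ℝ} (h0 : 0 < θ) (h1 : θ < 1) {ρ : ℂ → ℝ} (hρm : Measurable ρ)
    (hρ : ∀ u, 0 ≤ ρ u) (v : ℂ) :
    ∫⁻ u, ∫⁻ s, ENNReal.ofReal (be ρ v u * be ρ v s * rr θ (Ph ρ v u - Ph ρ v s)) ≤
      ∫⁻ u, ∫⁻ s, ENNReal.ofReal (X θ ρ v u s) := by
  set f : ℂ → ℂ → ℝ≥0∞ := fun u s => ENNReal.ofReal (X θ ρ v u s) with hf
  have hfm : Measurable (Function.uncurry f) :=
    ((X_meas h0 h1 hρm).comp
      ((measurable_const.prodMk measurable_fst).prodMk measurable_snd)).ennreal_ofReal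
  have hle : ∫⁻ u, ∫⁻ s, ENNReal.ofReal (be ρ v u * be ρ v s * rr θ (Ph ρ v u - Ph ρ v s)) ≤
      ∫⁻ u, ∫⁻ s, (1 / 2 : ℝ≥0∞) * (f u s + f s u) := by
    refine lintegral_mono fun u => lintegral_mono fun s => ?_
    rw [hf]
    simp only
    rw [← ofReal_half _ _ (X_nonneg hRR h0 h1 ρ v u s) (X_nonneg hRR h0 h1 ρ v s u)]
    exact ENNReal.ofReal_le_ofReal (point hRR h0 h1 hρ v u s)
  refine hle.trans (le_of_eq ?_)
  have hsw : ∫⁻ u, ∫⁻ s, f s u = ∫⁻ u, ∫⁻ s, f u s :=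
    lintegral_lintegral_swap (hfm.comp measurable_swap).aemeasurable
  rw [avg f (fun u s => f s u) hfm, hsw, half_add]

lemma stepB2 (hRR : P_RR) {θ : ℝ} (h0 : 0 < θ) (h1 : θ < 1) {ρ : ℂ → ℝ} (hρm : Measurable ρ)
    (hρ : ∀ u, 0 ≤ ρ u) (v : ℂ) :
    ∫⁻ u, ∫⁻ s, ENNReal.ofReal (X θ ρ v u s) ≤ ∫⁻ u, ∫⁻ s, ENNReal.ofReal (Z θ ρ v u s) := by
  set f : ℂ → ℂ → ℝ≥0∞ := fun u s => ENNReal.ofReal (Z θ ρ v u s) with hf
  have hfm : Measurable (Function.uncurry f) :=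
    ((Z_meas h0 h1 hρm).comp
      ((measurable_const.prodMk measurable_fst).prodMk measurable_snd)).ennreal_ofReal
  have hle : ∫⁻ u, ∫⁻ s, ENNReal.ofReal (X θ ρ v u s) ≤
      ∫⁻ u, ∫⁻ s, (1 / 2 : ℝ≥0∞) * (f u s + f (v - u) s) := by
    refine lintegral_mono fun u => lintegral_mono fun s => ?_
    rw [hf]
    simp only
    rw [← ofReal_half _ _ (Z_nonneg hRR h0 h1 hρ v u s) (Z_nonneg hRR h0 h1 hρ v (v - u) s)]
    exact ENNReal.ofReal_le_ofReal (X_le hRR h0 h1 hρ v u s)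
  refine hle.trans (le_of_eq ?_)
  have hsw : ∫⁻ u, ∫⁻ s, f (v - u) s = ∫⁻ u, ∫⁻ s, f u s :=
    lintegral_sub_left_eq_self (μ := volume) (fun u : ℂ => ∫⁻ s, f u s) v
  rw [avg f (fun u s => f (v - u) s) hfm, hsw, half_add]

lemma stepB (hRR : P_RR) {θ : ℝ} (h0 : 0 < θ) (h1 : θ < 1) {ρ : ℂ → ℝ} (hρm : Measurable ρ)
    (hρ : ∀ u, 0 ≤ ρ u) (v : ℂ) :
    ∫⁻ u, ∫⁻ s, ENNReal.ofReal (be ρ v u * be ρ v s * rr θ (Ph ρ v u - Ph ρ v s)) ≤
      ∫⁻ u, ∫⁻ s, ENNReal.ofReal (Z θ ρ v u s) :=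
  (stepB1 hRR h0 h1 hρm hρ v).trans (stepB2 hRR h0 h1 hρm hρ v)

/-! ### the result -/

theorem t (h1 : P_KRN) (h2 : P_PL4) (h3 : P_RR) : P_KEA := by
  intro θ t0 t1 ρ σ hA
  have hA' := hA
  obtain ⟨hρm, hσm, hρ, ⟨M, hM⟩, ⟨δ, R, hδ, hR⟩, hσ⟩ := hA
  obtain ⟨⟨B, hB0, hB⟩, hb0⟩ := b_bdd hρ hM hδ hR
  have hzero : ρ 0 = 0 := by
    by_contra h
    have := (hR 0 h).1
    rw [norm_zero] at this
    linarith
  have hF : ∀ (y : ℝ) (u : ℂ), FZ ρ σ (1 + (y : ℂ) * I) u =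
      (b ρ u : ℂ) * Complex.exp (-((y * Ps ρ u : ℝ) : ℂ) * I) * σ u := fun y u => FZ_eq hρ σ y u
  have hFm : Measurable fun q : ℝ × ℂ => FZ ρ σ (1 + (q.1 : ℂ) * I) q.2 := by
    simp only [hF]
    have e1 : Measurable fun q : ℝ × ℂ => ((b ρ q.2 : ℝ) : ℂ) :=
      Complex.measurable_ofReal.comp ((b_meas hρm).comp measurable_snd)
    have e2 : Measurable fun q : ℝ × ℂ => Complex.exp (-((q.1 * Ps ρ q.2 : ℝ) : ℂ) * I) :=
      Complex.measurable_exp.comp (((Complex.measurable_ofReal.comp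
        (measurable_fst.mul ((Ps_meas hρm).comp measurable_snd))).neg).mul_const I)
    exact (e1.mul e2).mul (hσm.comp measurable_snd)
  have hN : ∀ y : ℝ, Nice (FZ ρ σ (1 + (y : ℂ) * I)) := by
    intro y
    refine ⟨hFm.comp (measurable_const.prodMk measurable_id), ⟨B, fun u => ?_⟩, R, fun u hu => ?_⟩
    · rw [hF]
      have he : ‖Complex.exp (-((y * Ps ρ u : ℝ) : ℂ) * I)‖ = 1 := by
        rw [show -((y * Ps ρ u : ℝ) : ℂ) * I = ((-(y * Ps ρ u) : ℝ) : ℂ) * I by push_cast; ring]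
        exact Complex.norm_exp_ofReal_mul_I _
      rw [norm_mul, norm_mul, he, mul_one, Complex.norm_real, Real.norm_of_nonneg (b_nonneg _ _)]
      calc b ρ u * ‖σ u‖ ≤ b ρ u * 1 := mul_le_mul_of_nonneg_left (hσ u) (b_nonneg _ _)
        _ ≤ B := by rw [mul_one]; exact hB u
    · rw [hF, hb0 u hu]
      simp
  have hw : ∀ y : ℝ, (1 + y ^ 2) * p1 θ y = w θ y := fun y => rfl
  have hwm : Measurable fun y => ENNReal.ofReal (w θ y) := (w_cont t0 t1).measurable.ennreal_ofReal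
  have hGm : Measurable fun q : ℝ × ℂ => ‖∫ u, FZ ρ σ (1 + (q.1 : ℂ) * I) u *
      FZ ρ σ (1 + (q.1 : ℂ) * I) (q.2 - u)‖ₑ ^ 2 := by
    have e : StronglyMeasurable fun r : (ℝ × ℂ) × ℂ => FZ ρ σ (1 + (r.1.1 : ℂ) * I) r.2 *
        FZ ρ σ (1 + (r.1.1 : ℂ) * I) (r.1.2 - r.2) := by
      apply Measurable.stronglyMeasurable
      exact (hFm.comp ((measurable_fst.comp measurable_fst).prodMk measurable_snd)).mul
        (hFm.comp ((measurable_fst.comp measurable_fst).prodMk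
          ((measurable_snd.comp measurable_fst).sub measurable_snd)))
    exact (e.integral_prod_right.measurable.enorm).pow_const 2
  have hZm := (Z_meas t0 t1 hρm).ennreal_ofReal
  calc ∫⁻ y : ℝ, ENNReal.ofReal ((1 + y ^ 2) * p1 θ y) * ∫⁻ x, ‖hat (FZ ρ σ (1 + (y : ℂ) * I)) x‖ₑ ^ 4
      ≤ ∫⁻ y : ℝ, ENNReal.ofReal (w θ y) * (ENNReal.ofReal ((2 * Real.pi) ^ 2) *
          ∫⁻ v, ‖∫ u, FZ ρ σ (1 + (y : ℂ) * I) u * FZ ρ σ (1 + (y : ℂ) * I) (v - u)‖ₑ ^ 2) := by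
        refine lintegral_mono fun y => ?_
        rw [hw]
        exact mul_le_mul_right (h2 _ (hN y)) _
    _ = ENNReal.ofReal ((2 * Real.pi) ^ 2) * ∫⁻ y : ℝ, ∫⁻ v, ENNReal.ofReal (w θ y) *
          ‖∫ u, FZ ρ σ (1 + (y : ℂ) * I) u * FZ ρ σ (1 + (y : ℂ) * I) (v - u)‖ₑ ^ 2 := by
        rw [← lintegral_const_mul' _ _ ENNReal.ofReal_ne_top]
        refine lintegral_congr fun y => ?_
        rw [← lintegral_const_mul' _ _ ENNReal.ofReal_ne_top, ← lintegral_const_mul' _ _ ENNReal.ofReal_ne_top,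
          ← lintegral_const_mul' _ _ ENNReal.ofReal_ne_top]
        refine lintegral_congr fun v => ?_
        ring
    _ = ENNReal.ofReal ((2 * Real.pi) ^ 2) * ∫⁻ v : ℂ, ∫⁻ y : ℝ, ENNReal.ofReal (w θ y) *
          ‖∫ u, FZ ρ σ (1 + (y : ℂ) * I) u * FZ ρ σ (1 + (y : ℂ) * I) (v - u)‖ₑ ^ 2 := by
        congr 1
        refine lintegral_lintegral_swap ?_
        exact ((hwm.comp measurable_fst).mul hGm).aemeasurable
    _ ≤ ENNReal.ofReal ((2 * Real.pi) ^ 2) * ∫⁻ v : ℂ, ∫⁻ u, ∫⁻ s, ENNReal.ofReal (Z θ ρ v u s) := by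
        refine mul_le_mul_right (lintegral_mono fun v => ?_) _
        exact (stepA h1 h3 t0 t1 hA' v).trans (stepB h3 t0 t1 hρm hρ v)
    _ = ENNReal.ofReal ((2 * Real.pi) ^ 2) * ∫⁻ u : ℂ, ∫⁻ v, ∫⁻ s, ENNReal.ofReal (Z θ ρ v u s) := by
        congr 1
        refine lintegral_lintegral_swap ?_
        exact hZm.lintegral_prod_right'.aemeasurable
    _ = ENNReal.ofReal ((2 * Real.pi) ^ 2) * ∫⁻ u, ENNReal.ofReal (ρ u) * JD θ u := by
        congr 1
        refine lintegral_congr fun u => ?_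
        unfold JD
        rw [← lintegral_const_mul' _ _ ENNReal.ofReal_ne_top]
        refine lintegral_congr fun v => ?_
        rw [← lintegral_const_mul' _ _ ENNReal.ofReal_ne_top]
        refine lintegral_congr fun s => ?_
        rw [← ENNReal.ofReal_mul (hρ u)]
        congr 1
        by_cases hu : u = 0
        · unfold Z
          rw [hu, hzero]
          ring
        · have m1 : 0 < ‖u‖ := norm_pos_iff.mpr hu
          unfold Z kr Lg
          have e1 : (‖u‖ * ‖v - u‖) ^ (-(3 / 2) : ℝ) * ‖u‖ ^ 2 =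
              ‖u‖ ^ (1 / 2 : ℝ) * ‖v - u‖ ^ (-(3 / 2) : ℝ) := by
            rw [Real.mul_rpow m1.le (norm_nonneg _)]
            have : ‖u‖ ^ (1 / 2 : ℝ) = ‖u‖ ^ (-(3 / 2) : ℝ) * ‖u‖ ^ 2 := by
              rw [← Real.rpow_natCast ‖u‖ 2, ← Real.rpow_add m1]
              norm_num
            rw [this]
            ring
          linear_combination (ρ u * (‖s‖ * ‖v - s‖) ^ (-(3 / 2) : ℝ) *
            (rr θ (Real.log ((‖u‖ * ‖v - u‖) / (‖s‖ * ‖v - s‖)) / 2) +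
              rd θ (Real.log ((‖u‖ * ‖v - u‖) / (‖s‖ * ‖v - s‖)) / 2))) * e1

end Pool.Agent.H7PB.KEA
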